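import Pool.Agent.Helper70.SK.Stmts
import Pool.Agent.Helper70.SK.Lib

namespace Pool.Agent.Helper70.SK

open Finset Pool.Agent.Helper70.DK

/-- pointwise averaging over a fibre -/
lemma s4d_pt {Ω : Type} (F : Finset Ω) (p : Ω → Prop) [DecidablePred p] (ex : Ω → ℕ) (box good : ℝ)
    (hF : F.Nonempty) (hg : 0 ≤ good) (h : ∀ ω' ∈ F, p ω' → box - ex ω' ≤ good) :
    ((F.filter p).card : ℝ) / F.card * box - (∑ ω' ∈ F, if p ω' then (ex ω' : ℝ) else 0) / F.card ≤ good := by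
  have hc : (0 : ℝ) < F.card := by exact_mod_cast hF.card_pos
  have h1 : ∑ ω' ∈ F, (if p ω' then (box - ex ω') else 0) ≤ ∑ _ω' ∈ F, good := by
    refine Finset.sum_le_sum fun ω' hω' => ?_
    split_ifs with hp
    · exact h ω' hω' hp
    · exact hg
  have h2 : ∑ ω' ∈ F, (if p ω' then (box - ex ω') else 0) =
      ((F.filter p).card : ℝ) * box - ∑ ω' ∈ F, (if p ω' then (ex ω' : ℝ) else 0) := by
    have h3 : ∀ ω' ∈ F, (if p ω' then (box - ex ω') else 0) =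
        (if p ω' then box else 0) - (if p ω' then (ex ω' : ℝ) else 0) := by
      intro ω' _
      split_ifs <;> simp
    rw [Finset.sum_congr rfl h3, Finset.sum_sub_distrib, ← Finset.sum_filter, Finset.sum_const, nsmul_eq_mul]
  rw [h2, Finset.sum_const, nsmul_eq_mul] at h1
  have h4 : ((F.filter p).card : ℝ) / F.card * box - (∑ ω' ∈ F, if p ω' then (ex ω' : ℝ) else 0) / F.card =
      (((F.filter p).card : ℝ) * box - ∑ ω' ∈ F, if p ω' then (ex ω' : ℝ) else 0) / F.card := by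
    field_simp
  rw [h4, div_le_iff₀ hc]
  linarith

/-- size of the box -/
lemma s4d_box (q s0 s1 h : ℕ) (z : Fin q → ℤ) (hs0 : 0 < s0) :
    (s0 : ℝ) ^ q * (1 - 2 * q * ((s1 + h) / s0)) ≤
      ((Fintype.piFinset (fun r => Finset.Icc (z r - s0 + s1 + h) (z r - s1 - h))).card : ℝ) := by
  have hs : (0 : ℝ) < s0 := by exact_mod_cast hs0
  have hcard : (Fintype.piFinset (fun r => Finset.Icc (z r - s0 + s1 + h) (z r - s1 - h))).card =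
      (((s0 : ℤ) + 1 - 2 * s1 - 2 * h).toNat) ^ q := by
    rw [Fintype.card_piFinset]
    have h1 : ∀ r : Fin q, (Finset.Icc (z r - (s0 : ℤ) + s1 + h) (z r - s1 - h)).card =
        ((s0 : ℤ) + 1 - 2 * s1 - 2 * h).toNat := by
      intro r
      rw [Int.card_Icc]
      congr 1
      ring
    rw [Finset.prod_congr rfl (fun r _ => h1 r), Finset.prod_const, Finset.card_univ, Fintype.card_fin]
  rw [hcard]
  push_cast
  set t : ℕ := ((s0 : ℤ) + 1 - 2 * s1 - 2 * h).toNat with ht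
  have ht1 : (s0 : ℝ) - 2 * (s1 + h) ≤ t := by
    have h2 : (s0 : ℤ) + 1 - 2 * s1 - 2 * h ≤ (t : ℤ) := Int.self_le_toNat _
    have h3 : ((s0 : ℤ) + 1 - 2 * s1 - 2 * h : ℝ) ≤ (t : ℝ) := by exact_mod_cast h2
    push_cast at h3
    linarith
  have hsh : (0 : ℝ) ≤ (s1 : ℝ) + h := by positivity
  rcases Nat.eq_zero_or_pos q with hq | hq
  · subst hq
    simp
  by_cases hcase : (0 : ℝ) ≤ (s0 : ℝ) - 2 * (s1 + h)
  · have h4 : (s0 : ℝ) - 2 * (s1 + h) = s0 * (1 + (-2 * ((s1 + h) / s0))) := by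
      field_simp
      ring
    have h5 : ((s0 : ℝ) - 2 * (s1 + h)) ^ q ≤ (t : ℝ) ^ q := pow_le_pow_left₀ hcase ht1 q
    have h6 : -2 ≤ -2 * (((s1 : ℝ) + h) / s0) := by
      have h7 : ((s1 : ℝ) + h) / s0 ≤ 1 := by
        rw [div_le_one hs]
        linarith
      linarith
    have h8 := one_add_mul_le_pow h6 q
    rw [h4, mul_pow] at h5
    have h9 : (s0 : ℝ) ^ q * (1 + q * (-2 * (((s1 : ℝ) + h) / s0))) ≤
        (s0 : ℝ) ^ q * (1 + -2 * (((s1 : ℝ) + h) / s0)) ^ q := mul_le_mul_of_nonneg_left h8 (by positivity)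
    have h10 : (s0 : ℝ) ^ q * (1 - 2 * q * ((s1 + h) / s0)) =
        (s0 : ℝ) ^ q * (1 + q * (-2 * (((s1 : ℝ) + h) / s0))) := by ring
    rw [h10]
    exact h9.trans h5
  · push Not at hcase
    have h4 : (1 : ℝ) ≤ 2 * q * (((s1 : ℝ) + h) / s0) := by
      have h5 : (1 : ℝ) ≤ 2 * (((s1 : ℝ) + h) / s0) := by
        rw [← mul_div_assoc, le_div_iff₀ hs]
        linarith
      have h6 : (1 : ℝ) ≤ q := by exact_mod_cast hq
      nlinarith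
    have h7 : (s0 : ℝ) ^ q * (1 - 2 * q * ((s1 + h) / s0)) ≤ 0 :=
      mul_nonpos_of_nonneg_of_nonpos (by positivity) (by linarith)
    exact h7.trans (by positivity)

/-- the box is contained in the set of corners -/
lemma s4d_sub (q s0 s1 h : ℕ) (z y' : Fin q → ℤ) (hh : 0 < h) (hz : ∀ r, |y' r - z r| ≤ (s1 : ℤ)) :
    (Fintype.piFinset (fun r => Finset.Icc (z r - s0 + s1 + h) (z r - s1 - h))) ⊆ Bx (s0 : ℤ) y' := by
  intro S hS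
  rw [Fintype.mem_piFinset] at hS
  unfold Bx
  rw [Fintype.mem_piFinset]
  intro r
  have h1 := Finset.mem_Icc.1 (hS r)
  have h2 := abs_le.1 (hz r)
  rw [Finset.mem_Ioc]
  have h3 : (0 : ℤ) < h := by exact_mod_cast hh
  constructor <;> omega

variable {m q : ℕ}

lemma s4d_e (σ : Sy m q) {l l' : ℕ} (h : l ≤ l') (h' : l' ≤ σ.n) : σ.e l = σ.e l' + (l' - l) := by
  unfold Sy.e; omega

/-- the profile coordinates of a point and its partner -/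
lemma s4d_err (hGEO : ST_GEO) {B : ℕ} {R κ D C : ℝ} {σ : Sy m q} (hB : 2 ≤ B) (hR : 0 ≤ R) (hD : 0 ≤ D)
    (ok : σ.Ok B R κ D C) (Q i l1 K w : ℕ) (rep : ℕ → ℕ) (hrep : σ.Rep B Q rep) (hQn : Q ≤ σ.n)
    (hil : i ≤ l1) (hl12 : l1 < K) (hKn : K ≤ σ.n) (hQw : Q = (l1 - i) + w)
    (hw : 4 * (m * (R + 1 + D)) ≤ (B : ℝ) ^ w) (γ : ℕ) (hγ : γ ∈ σ.G) (x x' : Fin m → ℤ) (hx : x ∈ σ.X B)
    (hx' : x' ∈ σ.X B) (h : cl B (σ.e K) (σ.Y B γ x') = cl B (σ.e K) (σ.Y B γ x)) (r : Fin q) :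
    |σ.yc B i (rep γ) x' r - (σ.yc B i (rep γ) x r - σ.Rd B i γ x x' r)| ≤ ((B ^ σ.e l1 : ℕ) : ℤ) := by
  obtain ⟨-, h2, h3, -⟩ := hGEO m q B R κ D C σ hB hR hD ok
  have hin : i ≤ σ.n := by omega
  obtain ⟨c1, c2, -, -⟩ := h3 i hin x hx
  obtain ⟨c1', c2', -, -⟩ := h3 i hin x' hx'
  have e1 := h2 Q rep hQn hrep γ hγ i hin x hx (σ.co B i x) c1 c2.symm r
  have e2 := h2 Q rep hQn hrep γ hγ i hin x' hx' (σ.co B i x') c1' c2'.symm r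
  have hBr : (2 : ℝ) ≤ B := by exact_mod_cast hB
  have hB0 : (0 : ℝ) < B := by linarith
  -- same cell of level K
  have e3 : |(σ.Y B γ x' r : ℝ) - (σ.Y B γ x r : ℝ)| ≤ (B : ℝ) ^ σ.e K := by
    have h4 := congrFun h r
    unfold cl at h4
    have hpos : (0 : ℤ) < (B : ℤ) ^ σ.e K := by positivity
    have a1 := Int.emod_add_mul_ediv (σ.Y B γ x' r) ((B : ℤ) ^ σ.e K)
    have a2 := Int.emod_add_mul_ediv (σ.Y B γ x r) ((B : ℤ) ^ σ.e K)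
    have a3 := Int.emod_nonneg (σ.Y B γ x' r) hpos.ne'
    have a4 := Int.emod_nonneg (σ.Y B γ x r) hpos.ne'
    have a5 := Int.emod_lt_of_pos (σ.Y B γ x' r) hpos
    have a6 := Int.emod_lt_of_pos (σ.Y B γ x r) hpos
    rw [h4] at a1
    have h5 : |σ.Y B γ x' r - σ.Y B γ x r| ≤ (B : ℤ) ^ σ.e K := by
      rw [abs_le]
      constructor <;> linarith
    exact_mod_cast h5
  have e4 : 2 * (B : ℝ) ^ σ.e K ≤ (B : ℝ) ^ σ.e l1 := by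
    rw [s4d_e σ (le_of_lt hl12) hKn, pow_add]
    have h5 : (2 : ℝ) ≤ (B : ℝ) ^ (K - l1) := by
      calc (2 : ℝ) ≤ (B : ℝ) ^ 1 := by simpa using hBr
        _ ≤ (B : ℝ) ^ (K - l1) := pow_le_pow_right₀ (by linarith) (by omega)
    have h6 : (0 : ℝ) < (B : ℝ) ^ σ.e K := by positivity
    nlinarith
  have e5 : 4 * (m * (R + 1 + D) * (B : ℝ) ^ σ.e i / (B : ℝ) ^ Q) ≤ (B : ℝ) ^ σ.e l1 := by
    rw [s4d_e σ hil (by omega), hQw, pow_add, pow_add, ← mul_div_assoc, div_le_iff₀ (by positivity)]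
    have h6 : (0 : ℝ) < (B : ℝ) ^ σ.e l1 * (B : ℝ) ^ (l1 - i) := by positivity
    have h7 := mul_le_mul_of_nonneg_right hw h6.le
    calc 4 * (m * (R + 1 + D) * ((B : ℝ) ^ σ.e l1 * (B : ℝ) ^ (l1 - i)))
        = 4 * (m * (R + 1 + D)) * ((B : ℝ) ^ σ.e l1 * (B : ℝ) ^ (l1 - i)) := by ring
      _ ≤ (B : ℝ) ^ w * ((B : ℝ) ^ σ.e l1 * (B : ℝ) ^ (l1 - i)) := h7
      _ = (B : ℝ) ^ σ.e l1 * ((B : ℝ) ^ (l1 - i) * (B : ℝ) ^ w) := by ring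
  have key : |((σ.yc B i (rep γ) x' r - (σ.yc B i (rep γ) x r - σ.Rd B i γ x x' r) : ℤ) : ℝ)| ≤
      (B : ℝ) ^ σ.e l1 := by
    unfold Sy.yc Sy.Rd
    push_cast
    have a1 := abs_le.1 e1
    have a2 := abs_le.1 e2
    have a3 := abs_le.1 e3
    rw [abs_le]
    constructor <;> linarith
  have : ((|σ.yc B i (rep γ) x' r - (σ.yc B i (rep γ) x r - σ.Rd B i γ x x' r)| : ℤ) : ℝ) ≤
      (((B ^ σ.e l1 : ℕ) : ℤ) : ℝ) := by
    rw [Int.cast_abs]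
    push_cast at key ⊢
    exact key
  exact_mod_cast this

lemma s4d_floor (a b s : ℤ) (hs : 0 < s) (h : a / s = b / s) : |a - b| < s := by
  have a1 := Int.emod_add_mul_ediv a s
  have a2 := Int.emod_add_mul_ediv b s
  have a3 := Int.emod_nonneg a hs.ne'
  have a4 := Int.emod_nonneg b hs.ne'
  have a5 := Int.emod_lt_of_pos a hs
  have a6 := Int.emod_lt_of_pos b hs
  rw [h] at a1
  rw [abs_lt]
  constructor <;> linarith

/-- finer cells inside a given cell -/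
lemma s4d_V (q B e1 e2 : ℕ) (hB : 2 ≤ B) (he : e2 ≤ e1) (w : Fin q → ℤ) :
    ∃ F : Finset (Fin q → ℤ), F.card ≤ B ^ (q * (e1 - e2)) ∧
      ∀ z : Fin q → ℤ, cl B e1 z = w → (fun r => z r / (B : ℤ) ^ e2) ∈ F := by
  refine ⟨Fintype.piFinset (fun r => Finset.Ico (w r * (B : ℤ) ^ (e1 - e2)) ((w r + 1) * (B : ℤ) ^ (e1 - e2))), ?_, ?_⟩
  · rw [Fintype.card_piFinset]
    have h1 : ∀ r : Fin q, (Finset.Ico (w r * (B : ℤ) ^ (e1 - e2)) ((w r + 1) * (B : ℤ) ^ (e1 - e2))).card =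
        B ^ (e1 - e2) := by
      intro r
      rw [Int.card_Ico]
      have : (w r + 1) * (B : ℤ) ^ (e1 - e2) - w r * (B : ℤ) ^ (e1 - e2) = ((B ^ (e1 - e2) : ℕ) : ℤ) := by
        push_cast; ring
      rw [this, Int.toNat_natCast]
    rw [Finset.prod_congr rfl (fun r _ => h1 r), Finset.prod_const, Finset.card_univ, Fintype.card_fin, ← pow_mul,
      Nat.mul_comm]
  · intro z hz
    rw [Fintype.mem_piFinset]
    intro r
    have hB0 : (0 : ℤ) < B := by exact_mod_cast (by omega : 0 < B)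
    have h1 : z r / (B : ℤ) ^ e1 = w r := congrFun hz r
    have h2 : (B : ℤ) ^ e1 = (B : ℤ) ^ e2 * (B : ℤ) ^ (e1 - e2) := by
      rw [← pow_add]; congr 1; omega
    have h3 : z r / (B : ℤ) ^ e2 / (B : ℤ) ^ (e1 - e2) = w r := by
      rw [Int.ediv_ediv_of_nonneg (by positivity), ← h2]; exact h1
    have hpos : (0 : ℤ) < (B : ℤ) ^ (e1 - e2) := by positivity
    rw [Finset.mem_Ico]
    constructor
    · rw [← h3]; exact Int.ediv_mul_le _ hpos.ne'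
    · rw [← h3]; exact Int.lt_ediv_add_one_mul_self _ hpos

lemma s4d_grne (k M : ℕ) (hM : 0 < M) : (gr k M).Nonempty := by
  unfold gr
  rw [Fintype.piFinset_nonempty]
  intro r
  rw [Finset.nonempty_Ico]
  exact_mod_cast hM

lemma s4d_ne {B : ℕ} {R κ D C : ℝ} {σ : Sy m q} (hB : 2 ≤ B) (ok : σ.Ok B R κ D C) :
    (σ.GX B).Nonempty ∧ (σ.U B).Nonempty ∧ (σ.Pa B).Nonempty := by
  have h1 : (σ.X B).Nonempty := s4d_grne _ _ (by positivity)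
  have h2 : (σ.GX B).Nonempty := Finset.Nonempty.product ok.ne h1
  have h3 : (σ.U B).Nonempty := s4d_grne _ _ (by positivity)
  have h4 : (Finset.range (σ.N0 B)).Nonempty := by
    rw [Finset.nonempty_range_iff]
    exact Nat.factorial_ne_zero _
  exact ⟨h2, h3, Finset.Nonempty.product (Finset.Nonempty.product h2 h4) h3⟩

/-- averages over the partner space -/
lemma s4d_avg (hPARA : ST_PARA) {B : ℕ} {R κ D C : ℝ} {σ : Sy m q} (hB : 2 ≤ B) (ok : σ.Ok B R κ D C) (k K : ℕ)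
    (f : ℕ × (Fin m → ℤ) → ℝ) :
    (∑ ω ∈ σ.Pa B, f (ω.1.1.1, σ.x1 B k K ω)) * (σ.GX B).card = (∑ z ∈ σ.GX B, f z) * (σ.Pa B).card := by
  obtain ⟨-, -, -, -, p5⟩ := hPARA m q B k K σ
  obtain ⟨n1, n2, n3⟩ := s4d_ne hB ok
  have h1 := (p5 (fun z : BS m q => f z.1)).2
  have h2 : ∑ ω ∈ σ.Om B, f ω.1 = (σ.U B).card * ∑ z ∈ σ.GX B, f z := by
    unfold Sy.Om
    rw [Finset.sum_product, Finset.mul_sum]
    refine Finset.sum_congr rfl fun z _ => ?_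
    show ∑ _y ∈ σ.U B, f z = _
    rw [Finset.sum_const, nsmul_eq_mul]
  have h3 : ((σ.Om B).card : ℝ) = (σ.GX B).card * (σ.U B).card := by
    unfold Sy.Om
    rw [Finset.card_product]; push_cast; rfl
  have hU : (0 : ℝ) < (σ.U B).card := by exact_mod_cast n2.card_pos
  have h4 : (∑ ω ∈ σ.Pa B, f (ω.1.1.1, σ.x1 B k K ω)) * (σ.Om B).card =
      (∑ ω ∈ σ.Om B, f ω.1) * (σ.Pa B).card := h1
  rw [h2, h3] at h4
  have h5 : (σ.U B).card * ((∑ ω ∈ σ.Pa B, f (ω.1.1.1, σ.x1 B k K ω)) * (σ.GX B).card) =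
      (σ.U B).card * ((∑ z ∈ σ.GX B, f z) * ((σ.Pa B).card : ℝ)) := by
    linarith
  exact mul_left_cancel₀ hU.ne' h5

open Classical in
/-- (S4D) -/
theorem st_S4D (hS4A : ST_S4A) (hANTI : ST_ANTI) (hCOMB : ST_COMB) (hPARA : ST_PARA) (hGEO : ST_GEO) :
    ST_S4D := by
  intro m q B R κ D hq hB hR hD
  obtain ⟨cA, hcA, hS⟩ := hS4A m q B R κ D hB hR hD
  have hM0 : 0 ≤ (m : ℝ) * (R + 1 + D) := by positivity
  refine ⟨cA + 2 * q + 4 * (m * (R + 1 + D)), by positivity, ?_⟩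
  intro σ C Q k K i l0 lh l1 l2 rep φ2 ok hrep hki hil hlh hl1 hl12 hlK hKn hQn hQ hφ2
  have hBr : (2 : ℝ) ≤ B := by exact_mod_cast hB
  have hB0 : (0 : ℝ) < B := by linarith
  have hil1 : i ≤ l1 := by omega
  -- the exponent w
  have hQ1 : (l1 : ℝ) - i ≤ Q := by
    have : 0 ≤ cA + 2 * q + 4 * (m * (R + 1 + D)) := by positivity
    linarith
  have hQ2 : l1 ≤ Q + i := by
    have : (l1 : ℝ) ≤ ((Q + i : ℕ) : ℝ) := by push_cast; linarith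
    exact_mod_cast this
  obtain ⟨w, hw⟩ : ∃ w, Q = (l1 - i) + w := ⟨Q - (l1 - i), by omega⟩
  have hwr : 4 * (m * (R + 1 + D)) ≤ (B : ℝ) ^ w := by
    have h1 : (Q : ℝ) = ((l1 : ℝ) - i) + w := by
      rw [hw]; push_cast [Nat.cast_sub hil1]; ring
    have h2 : 4 * (m * (R + 1 + D)) ≤ (w : ℝ) := by
      have : (0 : ℝ) ≤ 2 * q := by positivity
      linarith
    have h3 : (w : ℝ) ≤ (2 : ℝ) ^ w := by
      have : w < 2 ^ w := Nat.lt_two_pow_self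
      exact_mod_cast this.le
    have h4 : (2 : ℝ) ^ w ≤ (B : ℝ) ^ w := pow_le_pow_left₀ (by norm_num) hBr w
    linarith
  obtain ⟨nGX, nU, nP⟩ := s4d_ne (q := q) hB ok
  obtain ⟨p1, -, -, -, -⟩ := hPARA m q B k K σ
  have hS' := hS σ C Q k K i l0 l2 rep ok hrep hki hil (by omega) hlK hKn hQn
  -- abbreviations
  obtain ⟨P, hP⟩ : ∃ P, P = σ.Pa B := ⟨_, rfl⟩
  obtain ⟨Gf, hGf⟩ : ∃ Gf, Gf = σ.GG B rep k K i l1 := ⟨_, rfl⟩
  obtain ⟨Rf, hRf⟩ : ∃ Rf : PS m q → Fin q → ℤ, Rf = fun ω => σ.Rd B i ω.1.1.1 ω.1.1.2 (σ.x1 B k K ω) := ⟨_, rfl⟩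
  obtain ⟨yf, hyf⟩ : ∃ yf : PS m q → Fin q → ℤ, yf = fun ω => σ.yc B i (rep ω.1.1.1) ω.1.1.2 := ⟨_, rfl⟩
  obtain ⟨φ, hφ⟩ : ∃ φ : ℝ, φ = 4 * Real.sqrt (σ.af B k K i l0 l2) +
        cA * ((B : ℝ) ^ l2 / (B : ℝ) ^ (i + Q) + (B : ℝ) ^ l2 / (B : ℝ) ^ K) := ⟨_, rfl⟩
  have hφ0 : 0 ≤ φ := by rw [hφ]; positivity
  have c0 : ((B ^ σ.e l0 : ℕ) : ℤ) = (B : ℤ) ^ σ.e l0 := by push_cast; rfl
  have c1 : ((B ^ σ.e l1 : ℕ) : ℤ) = (B : ℤ) ^ σ.e l1 := by push_cast; rfl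
  have c2 : ((B ^ σ.e l2 : ℕ) : ℤ) = (B : ℤ) ^ σ.e l2 := by push_cast; rfl
  have ch : ((B ^ σ.e lh : ℕ) : ℤ) = (B : ℤ) ^ σ.e lh := by push_cast; rfl
  have d0 : ((B ^ σ.e l0 : ℕ) : ℝ) = (B : ℝ) ^ σ.e l0 := by push_cast; rfl
  have d1 : ((B ^ σ.e l1 : ℕ) : ℝ) = (B : ℝ) ^ σ.e l1 := by push_cast; rfl
  have d2 : ((B ^ σ.e l2 : ℕ) : ℝ) = (B : ℝ) ^ σ.e l2 := by push_cast; rfl
  have dh : ((B ^ σ.e lh : ℕ) : ℝ) = (B : ℝ) ^ σ.e lh := by push_cast; rfl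
  -- (ANTI)
  have hA := hANTI (PS m q) _ q (B ^ (q * (l2 - l1))) P Rf Gf ((B : ℤ) ^ σ.e l2) (by rw [hP]; exact nP)
    (by positivity) (by
      calc 2 ≤ B ^ 1 := by simpa using hB
        _ ≤ B ^ (q * (l2 - l1)) := Nat.pow_le_pow_right (by omega)
          (Nat.mul_pos (by omega) (by omega))) (by
      intro c
      obtain ⟨F, hF1, hF2⟩ := s4d_V q B (σ.e l1) (σ.e l2) hB (by unfold Sy.e; omega) c.2.2.2.2
      have he : σ.e l1 - σ.e l2 = l2 - l1 := by unfold Sy.e; omega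
      rw [he] at hF1
      refine ⟨F, hF1, fun ω _ hc => ?_⟩
      refine hF2 _ ?_
      rw [← hc, hGf, hRf]
      rfl)
  -- (COMB)
  have hC := hCOMB (PS m q) _ (Finset (Fin m → ℤ) × ((Fin m → ℤ) → Fin q → ℤ)) q P Gf yf Rf
    (fun g S => (Qb (σ.Zt B i g.1) (σ.yc B i g.2.2.1) ((B : ℤ) ^ σ.e l0) S, pf (σ.yc B i g.2.2.1) ((B : ℤ) ^ σ.e l2) S))
    (fun g S => (Qb (σ.Zt B i g.2.1) (σ.yc B i g.2.2.1) ((B : ℤ) ^ σ.e l0) S, pf (σ.yc B i g.2.2.1) ((B : ℤ) ^ σ.e l2) S))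
    (fun p p' => Pool.Agent.Helper70.DK.l1 p.1 p.2 p'.1 p'.2) (B ^ σ.e l0) (B ^ σ.e l1) (B ^ σ.e l2) (B ^ σ.e lh) φ φ2
    (by rw [hP]; exact nP) (by positivity) (by positivity) hφ2 hφ0 (fun x => l1_self _ _)
    (fun x x' => l1_nonneg _ _ _ _) (fun x x' => l1_comm _ _ _ _) (fun x x' x'' => l1_triangle _ _ _ _ _ _)
    (by
      intro ω _ ω' _ hg r
      rw [hGf] at hg
      have h4 : cl B (σ.e l1) (σ.yc B i (rep ω.1.1.1) ω.1.1.2) = cl B (σ.e l1) (σ.yc B i (rep ω'.1.1.1) ω'.1.1.2) :=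
        congrArg (fun g => g.2.2.2.1) hg
      rw [c1, hyf]
      exact s4d_floor _ _ _ (by positivity) (congrFun h4 r))
    (by
      rw [d0, c0, hP, hGf, hyf, hRf, hφ]
      exact hS')
  -- the number of good cubes
  obtain ⟨good, hgood⟩ : ∃ good : ℕ × (Fin m → ℤ) → ℝ, good = fun z =>
      (((Bx ((B : ℤ) ^ σ.e l0) (σ.yc B i (rep z.1) z.2)).filter
        (fun S => σ.Sv B i l0 lh l1 l2 φ2 (σ.tr B i z.2) (rep z.1) S)).card : ℝ) := ⟨_, rfl⟩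
  have hpt : ∀ ω ∈ P,
      (((fib P Gf (Gf ω)).filter (fun ω' => ∃ r, (B : ℤ) ^ σ.e l2 ≤ |Rf ω' r - Rf ω r|)).card : ℝ) /
        ((fib P Gf (Gf ω)).card : ℝ) * ((Fintype.piFinset (fun r => Finset.Icc
          (yf ω r - Rf ω r - ((B ^ σ.e l0 : ℕ) : ℤ) + ((B ^ σ.e l1 : ℕ) : ℤ) + ((B ^ σ.e lh : ℕ) : ℤ))
          (yf ω r - Rf ω r - ((B ^ σ.e l1 : ℕ) : ℤ) - ((B ^ σ.e lh : ℕ) : ℤ)))).card : ℝ) -
        (∑ ω' ∈ fib P Gf (Gf ω), if (∃ r, ((B ^ σ.e l2 : ℕ) : ℤ) ≤ |Rf ω' r - Rf ω r|) then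
          (((Fintype.piFinset (fun r => Finset.Icc
          (yf ω r - Rf ω r - ((B ^ σ.e l0 : ℕ) : ℤ) + ((B ^ σ.e l1 : ℕ) : ℤ) + ((B ^ σ.e lh : ℕ) : ℤ))
          (yf ω r - Rf ω r - ((B ^ σ.e l1 : ℕ) : ℤ) - ((B ^ σ.e lh : ℕ) : ℤ)))).filter
          (fun S => ∃ j : ℕ, (∀ r, (j : ℤ) * |Rf ω' r - Rf ω r| ≤ ((B ^ σ.e lh : ℕ) : ℤ)) ∧
          φ2 < (fun p p' : Finset (Fin m → ℤ) × ((Fin m → ℤ) → Fin q → ℤ) =>
            Pool.Agent.Helper70.DK.l1 p.1 p.2 p'.1 p'.2)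
            ((fun (g : (Fin m → ℤ) × (Fin m → ℤ) × ℕ × (Fin q → ℤ) × (Fin q → ℤ)) (S : Fin q → ℤ) =>
              (Qb (σ.Zt B i g.2.1) (σ.yc B i g.2.2.1) ((B : ℤ) ^ σ.e l0) S,
                pf (σ.yc B i g.2.2.1) ((B : ℤ) ^ σ.e l2) S)) (Gf ω) S)
            ((fun (g : (Fin m → ℤ) × (Fin m → ℤ) × ℕ × (Fin q → ℤ) × (Fin q → ℤ)) (S : Fin q → ℤ) =>
              (Qb (σ.Zt B i g.2.1) (σ.yc B i g.2.2.1) ((B : ℤ) ^ σ.e l0) S,
                pf (σ.yc B i g.2.2.1) ((B : ℤ) ^ σ.e l2) S)) (Gf ω)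
              (fun r => S r - j * (Rf ω' r - Rf ω r))))).card : ℝ) else 0) /
          ((fib P Gf (Gf ω)).card : ℝ) ≤ good (ω.1.1.1, σ.x1 B k K ω) := by
    intro ω hω
    rw [← c2]
    refine s4d_pt (fib P Gf (Gf ω)) _ _ _ _ ⟨ω, ?_⟩ (by rw [hgood]; positivity) ?_
    · unfold fib
      exact Finset.mem_filter.2 ⟨hω, rfl⟩
    · intro ω' hω' hsep
      have hω1 : ω ∈ σ.Pa B := by rw [← hP]; exact hω
      have hGG : Gf ω' = Gf ω := by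
        unfold fib at hω'
        exact (Finset.mem_filter.1 hω').2
      obtain ⟨q1, q2⟩ := p1 ω hω1
      have hmem := Finset.mem_product.1 hω1
      have hmem2 := Finset.mem_product.1 (Finset.mem_product.1 hmem.1).1
      -- inclusion of the box
      have hsub := s4d_sub q (B ^ σ.e l0) (B ^ σ.e l1) (B ^ σ.e lh) (fun r => yf ω r - Rf ω r)
        (σ.yc B i (rep ω.1.1.1) (σ.x1 B k K ω)) (by positivity) (by
          intro r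
          rw [hyf, hRf]
          exact s4d_err hGEO hB hR hD ok Q i l1 K w rep hrep hQn hil1 (by omega) hKn hw hwr ω.1.1.1 hmem2.1
            ω.1.1.2 (σ.x1 B k K ω) hmem2.2 q1 (congrArg (fun g => g.2.2) q2) r)
      rw [c0] at hsub
      rw [hgood]
      have hcount := Finset.card_filter_add_card_filter_not (s := (Fintype.piFinset (fun r => Finset.Icc
          (yf ω r - Rf ω r - ((B ^ σ.e l0 : ℕ) : ℤ) + ((B ^ σ.e l1 : ℕ) : ℤ) + ((B ^ σ.e lh : ℕ) : ℤ))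
          (yf ω r - Rf ω r - ((B ^ σ.e l1 : ℕ) : ℤ) - ((B ^ σ.e lh : ℕ) : ℤ)))))
          (fun S => ∃ j : ℕ, (∀ r, (j : ℤ) * |Rf ω' r - Rf ω r| ≤ ((B ^ σ.e lh : ℕ) : ℤ)) ∧
          φ2 < (fun p p' : Finset (Fin m → ℤ) × ((Fin m → ℤ) → Fin q → ℤ) =>
            Pool.Agent.Helper70.DK.l1 p.1 p.2 p'.1 p'.2)
            ((fun (g : (Fin m → ℤ) × (Fin m → ℤ) × ℕ × (Fin q → ℤ) × (Fin q → ℤ)) (S : Fin q → ℤ) =>
              (Qb (σ.Zt B i g.2.1) (σ.yc B i g.2.2.1) ((B : ℤ) ^ σ.e l0) S,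
                pf (σ.yc B i g.2.2.1) ((B : ℤ) ^ σ.e l2) S)) (Gf ω) S)
            ((fun (g : (Fin m → ℤ) × (Fin m → ℤ) × ℕ × (Fin q → ℤ) × (Fin q → ℤ)) (S : Fin q → ℤ) =>
              (Qb (σ.Zt B i g.2.1) (σ.yc B i g.2.2.1) ((B : ℤ) ^ σ.e l0) S,
                pf (σ.yc B i g.2.2.1) ((B : ℤ) ^ σ.e l2) S)) (Gf ω)
              (fun r => S r - j * (Rf ω' r - Rf ω r))))
      rw [sub_le_iff_le_add, ← hcount]
      push_cast
      rw [add_comm]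
      refine add_le_add ?_ le_rfl
      refine Nat.cast_le.2 (Finset.card_le_card ?_)
      intro S hS1
      obtain ⟨hS2, hS3⟩ := Finset.mem_filter.1 hS1
      refine Finset.mem_filter.2 ⟨hsub hS2, ?_⟩
      refine ⟨fun r => Rf ω' r - Rf ω r, ?_, ?_, ?_⟩
      · intro r
        have h5 : cl B (σ.e l1) (Rf ω') = cl B (σ.e l1) (Rf ω) := by
          rw [hGf] at hGG
          rw [hRf]
          exact congrArg (fun g => g.2.2.2.2) hGG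
        exact s4d_floor _ _ _ (by positivity) (congrFun h5 r)
      · rw [← c2]; exact hsep
      · intro j hj
        by_contra hcon
        push Not at hcon
        refine hS3 ⟨j, hj, ?_⟩
        · have h6 : (Gf ω).2.1 = σ.tr B i (σ.x1 B k K ω) := by rw [hGf]; rfl
          have h7 : (Gf ω).2.2.1 = rep ω.1.1.1 := by rw [hGf]; rfl
          show φ2 < Pool.Agent.Helper70.DK.l1 (Qb (σ.Zt B i (Gf ω).2.1) (σ.yc B i (Gf ω).2.2.1) ((B : ℤ) ^ σ.e l0) S)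
            (pf (σ.yc B i (Gf ω).2.2.1) ((B : ℤ) ^ σ.e l2) S)
            (Qb (σ.Zt B i (Gf ω).2.1) (σ.yc B i (Gf ω).2.2.1) ((B : ℤ) ^ σ.e l0)
              (fun r => S r - j * (Rf ω' r - Rf ω r)))
            (pf (σ.yc B i (Gf ω).2.2.1) ((B : ℤ) ^ σ.e l2) (fun r => S r - j * (Rf ω' r - Rf ω r)))
          rw [h6, h7]
          exact hcon
  -- sum over P
  have hsum := Finset.sum_le_sum hpt
  rw [Finset.sum_sub_distrib] at hsum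
  have hsum2 := (sub_le_iff_le_add.1 hsum).trans (add_le_add le_rfl hC)
  have hPc : (0 : ℝ) < P.card := by
    rw [hP]; exact_mod_cast nP.card_pos
  obtain ⟨fr, hfr⟩ : ∃ fr : PS m q → ℝ, fr = fun ω =>
      (((fib P Gf (Gf ω)).filter (fun ω' => ∃ r, (B : ℤ) ^ σ.e l2 ≤ |Rf ω' r - Rf ω r|)).card : ℝ) /
        ((fib P Gf (Gf ω)).card : ℝ) := ⟨_, rfl⟩
  have hfr01 : ∀ ω, 0 ≤ fr ω ∧ fr ω ≤ 1 := by
    intro ω
    rw [hfr]
    refine ⟨by positivity, ?_⟩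
    refine div_le_one_of_le₀ ?_ (by positivity)
    exact_mod_cast Finset.card_filter_le _ _
  obtain ⟨zt, hzt⟩ : ∃ zt : ℝ, zt = (((B ^ σ.e l1 : ℕ) : ℝ) + ((B ^ σ.e lh : ℕ) : ℝ)) / ((B ^ σ.e l0 : ℕ) : ℝ) := ⟨_, rfl⟩
  have hzt0 : 0 ≤ zt := by rw [hzt]; positivity
  have hs0 : (0 : ℝ) < ((B ^ σ.e l0 : ℕ) : ℝ) := by positivity
  have hlow : ∑ ω ∈ P, ((B ^ σ.e l0 : ℕ) : ℝ) ^ q * (fr ω - 2 * q * zt) ≤
      ∑ ω ∈ P, (((fib P Gf (Gf ω)).filter (fun ω' => ∃ r, (B : ℤ) ^ σ.e l2 ≤ |Rf ω' r - Rf ω r|)).card : ℝ) /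
        ((fib P Gf (Gf ω)).card : ℝ) * ((Fintype.piFinset (fun r => Finset.Icc
          (yf ω r - Rf ω r - ((B ^ σ.e l0 : ℕ) : ℤ) + ((B ^ σ.e l1 : ℕ) : ℤ) + ((B ^ σ.e lh : ℕ) : ℤ))
          (yf ω r - Rf ω r - ((B ^ σ.e l1 : ℕ) : ℤ) - ((B ^ σ.e lh : ℕ) : ℤ)))).card : ℝ) := by
    refine Finset.sum_le_sum fun ω _ => ?_
    have h1 := s4d_box q (B ^ σ.e l0) (B ^ σ.e l1) (B ^ σ.e lh) (fun r => yf ω r - Rf ω r) (by positivity)
    rw [← hzt] at h1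
    have h2 := mul_le_mul_of_nonneg_left h1 (hfr01 ω).1
    have h3 : ((B ^ σ.e l0 : ℕ) : ℝ) ^ q * (fr ω - 2 * q * zt) ≤
        fr ω * (((B ^ σ.e l0 : ℕ) : ℝ) ^ q * (1 - 2 * q * zt)) := by
      have h4 : fr ω * (((B ^ σ.e l0 : ℕ) : ℝ) ^ q * (1 - 2 * q * zt)) -
          ((B ^ σ.e l0 : ℕ) : ℝ) ^ q * (fr ω - 2 * q * zt) =
          ((B ^ σ.e l0 : ℕ) : ℝ) ^ q * ((1 - fr ω) * (2 * q * zt)) := by ring
      have h5 : 0 ≤ ((B ^ σ.e l0 : ℕ) : ℝ) ^ q * ((1 - fr ω) * (2 * q * zt)) := by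
        have h6 : 0 ≤ 1 - fr ω := by linarith [(hfr01 ω).2]
        positivity
      linarith
    refine h3.trans (h2.trans (le_of_eq ?_))
    rw [hfr]
  have hsum3 := hlow.trans hsum2
  -- the sum of good
  have havg := s4d_avg hPARA hB ok k K good
  have hGXc : (0 : ℝ) < (σ.GX B).card := by exact_mod_cast nGX.card_pos
  have hzz : ∑ ω ∈ P, good (ω.1.1.1, σ.x1 B k K ω) =
      σ.zz B i l0 rep (σ.Sv B i l0 lh l1 l2 φ2) * P.card * ((B ^ σ.e l0 : ℕ) : ℝ) ^ q := by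
    have h1 : σ.zz B i l0 rep (σ.Sv B i l0 lh l1 l2 φ2) =
        (∑ z ∈ σ.GX B, good z) / ((σ.GX B).card * ((B : ℝ) ^ σ.e l0) ^ q) := by
      rw [hgood]
      rfl
    rw [h1, ← d0, hP]
    rw [div_mul_eq_mul_div, div_mul_eq_mul_div, eq_div_iff (by positivity), ← havg]
    ring
  rw [hzz, ← Finset.mul_sum, Finset.sum_sub_distrib, Finset.sum_const, nsmul_eq_mul] at hsum3
  -- divide by |P| s0^q
  obtain ⟨Aa, hAa⟩ : ∃ Aa : ℝ, Aa = (∑ ω ∈ P, fr ω) / P.card := ⟨_, rfl⟩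
  have hA2 : ∑ ω ∈ P, fr ω = Aa * P.card := by rw [hAa]; field_simp
  rw [hA2] at hsum3
  have hq0 : (0 : ℝ) < ((B ^ σ.e l0 : ℕ) : ℝ) ^ q := by positivity
  obtain ⟨zz, hzzd⟩ : ∃ zz, zz = σ.zz B i l0 rep (σ.Sv B i l0 lh l1 l2 φ2) := ⟨_, rfl⟩
  rw [← hzzd] at hsum3 ⊢
  have hmain : Aa - 2 * q * zt - 2 * φ * (((B ^ σ.e lh : ℕ) : ℝ) / (((B ^ σ.e l2 : ℕ) : ℝ) * φ2)) ≤ zz := by
    have h1 : (((B ^ σ.e l0 : ℕ) : ℝ) ^ q * P.card) *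
        (Aa - 2 * q * zt - 2 * φ * (((B ^ σ.e lh : ℕ) : ℝ) / (((B ^ σ.e l2 : ℕ) : ℝ) * φ2))) ≤
        (((B ^ σ.e l0 : ℕ) : ℝ) ^ q * P.card) * zz := by
      have e1 : (((B ^ σ.e l0 : ℕ) : ℝ) ^ q * P.card) *
        (Aa - 2 * q * zt - 2 * φ * (((B ^ σ.e lh : ℕ) : ℝ) / (((B ^ σ.e l2 : ℕ) : ℝ) * φ2))) =
        ((B ^ σ.e l0 : ℕ) : ℝ) ^ q * (Aa * P.card - P.card * (2 * q * zt)) -
          P.card * ((B ^ σ.e l0 : ℕ) : ℝ) ^ q * (2 * φ * (((B ^ σ.e lh : ℕ) : ℝ) / (((B ^ σ.e l2 : ℕ) : ℝ) * φ2))) := by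
        ring
      have e2 : (((B ^ σ.e l0 : ℕ) : ℝ) ^ q * P.card) * zz = zz * P.card * ((B ^ σ.e l0 : ℕ) : ℝ) ^ q := by ring
      rw [e1, e2]
      linarith
    exact le_of_mul_le_mul_left h1 (mul_pos hq0 hPc)
  -- the first term
  have hL : 0 < Real.log B := Real.log_pos (by linarith)
  have hl12r : (0 : ℝ) < (l2 : ℝ) - l1 := by
    have : (l1 : ℝ) < l2 := by exact_mod_cast hl12
    linarith
  have hqr : (0 : ℝ) < q := by exact_mod_cast hq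
  have hfirst : (σ.hr B rep k K i l1 l2 - (q + 1) * Real.log 3) / (q * ((l2 : ℝ) - l1) * Real.log B) ≤ Aa := by
    rw [div_le_iff₀ (by positivity)]
    have h1 : Real.log ((B ^ (q * (l2 - l1)) : ℕ) : ℝ) = q * ((l2 : ℝ) - l1) * Real.log B := by
      have h0 : ((l2 - l1 : ℕ) : ℝ) = (l2 : ℝ) - l1 := Nat.cast_sub hl12.le
      rw [Nat.cast_pow, Real.log_pow, Nat.cast_mul, h0]
    rw [h1] at hA
    have h2 : σ.hr B rep k K i l1 l2 = cent P (fun ω r => Rf ω r / (B : ℤ) ^ σ.e l2) Gf := by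
      rw [hP, hRf, hGf]
      rfl
    rw [h2]
    have h3 : (∑ ω ∈ P, (((fib P Gf (Gf ω)).filter (fun ω' => ∃ r, (B : ℤ) ^ σ.e l2 ≤ |Rf ω' r - Rf ω r|)).card : ℝ) /
        ((fib P Gf (Gf ω)).card : ℝ)) / P.card = Aa := by
      rw [hAa, hfr]
    rw [h3] at hA
    linarith
  -- the second term
  have hz2 : zt = 1 / (B : ℝ) ^ (l1 - l0) + 1 / (B : ℝ) ^ (lh - l0) := by
    rw [hzt, d0, d1, dh, add_div]
    have a1 : (B : ℝ) ^ σ.e l0 = (B : ℝ) ^ σ.e l1 * (B : ℝ) ^ (l1 - l0) := by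
      rw [s4d_e σ (show l0 ≤ l1 by omega) (by omega), pow_add]
    have a2 : (B : ℝ) ^ σ.e l0 = (B : ℝ) ^ σ.e lh * (B : ℝ) ^ (lh - l0) := by
      rw [s4d_e σ (show l0 ≤ lh by omega) (by omega), pow_add]
    congr 1
    · rw [a1]; field_simp
    · rw [a2]; field_simp
  have hz3 : ((B ^ σ.e lh : ℕ) : ℝ) / (((B ^ σ.e l2 : ℕ) : ℝ) * φ2) = (B : ℝ) ^ (l2 - lh) / φ2 := by
    rw [dh, d2, s4d_e σ (show lh ≤ l2 by omega) (by omega), pow_add]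
    field_simp
  rw [hz2, hz3] at hmain
  have g1 : (0 : ℝ) ≤ 1 / (B : ℝ) ^ (l1 - l0) + 1 / (B : ℝ) ^ (lh - l0) := by positivity
  have g2 : (0 : ℝ) ≤ (B : ℝ) ^ (l2 - lh) / φ2 := by positivity
  have g3 : (0 : ℝ) ≤ (B : ℝ) ^ l2 / (B : ℝ) ^ (i + Q) + (B : ℝ) ^ l2 / (B : ℝ) ^ K := by positivity
  have g4 : 2 * (q : ℝ) * (1 / (B : ℝ) ^ (l1 - l0) + 1 / (B : ℝ) ^ (lh - l0)) ≤
      (cA + 2 * q + 4 * (m * (R + 1 + D))) * (1 / (B : ℝ) ^ (l1 - l0) + 1 / (B : ℝ) ^ (lh - l0)) :=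
    mul_le_mul_of_nonneg_right (by linarith) g1
  have g5 : φ ≤ 4 * Real.sqrt (σ.af B k K i l0 l2) + (cA + 2 * q + 4 * (m * (R + 1 + D))) *
      ((B : ℝ) ^ l2 / (B : ℝ) ^ (i + Q) + (B : ℝ) ^ l2 / (B : ℝ) ^ K) := by
    rw [hφ]
    have : cA * ((B : ℝ) ^ l2 / (B : ℝ) ^ (i + Q) + (B : ℝ) ^ l2 / (B : ℝ) ^ K) ≤
        (cA + 2 * q + 4 * (m * (R + 1 + D))) * ((B : ℝ) ^ l2 / (B : ℝ) ^ (i + Q) + (B : ℝ) ^ l2 / (B : ℝ) ^ K) :=
      mul_le_mul_of_nonneg_right (by linarith) g3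
    linarith
  have g6 := mul_le_mul_of_nonneg_right g5 g2
  have g7 : 2 * (4 * Real.sqrt (σ.af B k K i l0 l2) + (cA + 2 * q + 4 * (m * (R + 1 + D))) *
      ((B : ℝ) ^ l2 / (B : ℝ) ^ (i + Q) + (B : ℝ) ^ l2 / (B : ℝ) ^ K)) * (B : ℝ) ^ (l2 - lh) / φ2 =
      2 * ((4 * Real.sqrt (σ.af B k K i l0 l2) + (cA + 2 * q + 4 * (m * (R + 1 + D))) *
      ((B : ℝ) ^ l2 / (B : ℝ) ^ (i + Q) + (B : ℝ) ^ l2 / (B : ℝ) ^ K)) * ((B : ℝ) ^ (l2 - lh) / φ2)) := by ring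
  rw [g7]
  linarith

end Pool.Agent.Helper70.SK
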